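import Pool.Agent.H89.KD.Stmts

/-!
# Module NDP of board kd: the functionals on `L^2`
-/

set_option autoImplicit false

open MeasureTheory Set Filter Topology
open scoped ContDiff

namespace Pool.Agent.H96.KD

open Pool.Agent.H84 Pool.Agent.H84.Sym Pool.Agent.H84.Sym.P2x Pool.Agent.H19.KL
open Pool.Agent.H73.KG Pool.Agent.H20.KH Pool.Agent.H89.KD

theorem NDP_erase {α : Type} {n : ℕ} (f : Fin (n + 1) → α) (s : Fin (n + 1)) :
    (List.ofFn f).eraseIdx s = List.ofFn (s.removeNth f) := by
  apply List.ext_getElem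
  · rw [List.length_eraseIdx_of_lt (by rw [List.length_ofFn]; exact s.2), List.length_ofFn,
      List.length_ofFn]
    simp
  · intro j h1 h2
    rw [List.getElem_eraseIdx]
    have h3 : j < n := by rwa [List.length_ofFn] at h2
    by_cases hj : j < (s : ℕ)
    · rw [dif_pos hj]
      simp only [List.getElem_ofFn, Fin.removeNth_apply]
      rw [Fin.succAbove_of_castSucc_lt _ _ (by rw [Fin.lt_def]; exact hj)]
      rfl
    · rw [dif_neg hj]
      simp only [List.getElem_ofFn, Fin.removeNth_apply]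
      rw [Fin.succAbove_of_le_castSucc _ _ (by rw [Fin.le_def]; exact not_lt.1 hj)]
      rfl

variable {E : Type} [NormedAddCommGroup E] [InnerProductSpace ℝ E]
    [FiniteDimensional ℝ E] [MeasurableSpace E] [BorelSpace E]

/-- induction on a dense set -/
theorem NDP_dense (hDNS : DNSStmt E) {U : E → ℝ} {t : ℝ} (hU : PP U t) {ι : Type} [Fintype ι]
    (b : OrthonormalBasis ι ℝ E) {p : Lp ℝ 2 (mu U) → Prop} (hcl : IsClosed {h | p h})
    (hS : ∀ (u : E → ℝ) (c : ℝ), Tst u → p (tL U (XU b U u c))) (h : Lp ℝ 2 (mu U)) : p h := by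
  have h1 : h ∈ closure {h | p h} := by
    rw [Metric.mem_closure_iff]
    intro ε hε
    obtain ⟨u, c, hu, hle⟩ := hDNS U t hU ι b h (ε / 2) (half_pos hε)
    refine ⟨_, hS u c hu, ?_⟩
    rw [dist_eq_norm]
    exact hle.trans_lt (half_lt_self hε)
  rwa [hcl.closure_eq] at h1

theorem NDP_pm {U : E → ℝ} {t : ℝ} (hU : PP U t) (F : E → ℝ) :
    pm U 0 0 F = ∫ x, F x ∂(mu U) := by
  obtain ⟨⟨C, hC⟩, hP⟩ := hU
  have e : ∀ F : E → ℝ, ZF U 0 0 F = ∫ x, F x ∂(mu U) := by
    intro F
    unfold ZF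
    rw [Pool.Agent.H84.Sym.integral_mu hC.smooth.continuous]
    congr 1
    funext x
    have : tp U 0 0 x = U x := by
      unfold tp
      simp
    rw [this]
  unfold pm
  rw [e, e]
  simp

theorem ndp_thm (hEXF : EXFStmt E) (hNDL : NDLStmt E) (hNDS : NDSStmt E) (hNDR : NDRStmt E)
    (hMEM : MEMStmt E) (hTSF : TSFStmt E) (hDNS : DNSStmt E) : NDPStmt E := by
  intro U t hU hcov Q hQ hK ι _ b T hT
  classical
  obtain ⟨mem1, mem2, mem3, mem4, mem5, mem6⟩ := hMEM U t hU
  obtain ⟨ndl1, ndl2, ndl3, ndl4⟩ := hNDL U t hU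
  obtain ⟨tsf1, tsf2, tsf3⟩ := hTSF U t hU ι b
  have hcv : ∀ f : E → ℝ, Pool.Agent.H73.KG.cv U f f ≤ ∫ x, f x ^ 2 ∂(mu U) := by
    intro f
    unfold Pool.Agent.H73.KG.cv
    have e : (fun x => f x * f x) = fun x => f x ^ 2 := by funext x; ring
    rw [e]
    nlinarith [mul_self_nonneg (∫ x, f x ∂(mu U))]
  have hKpos : ∀ m : ℕ, 0 ≤ (m.factorial : ℝ) ^ 2 * Q ^ (m - 1) := by
    intro m; positivity
  have hex : ∀ (m : ℕ) (w : Fin m → ι), ∃ P : Lp ℝ 2 (mu U) →L[ℝ] ℝ, 1 ≤ m →
      ∀ f : E → ℝ, GC f → P (tL U f) = ND U f (wl b w) 0 0 := by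
    intro m w
    by_cases hm : 1 ≤ m
    · obtain ⟨P, hP⟩ := hEXF U t hU (fun f => ND U f (wl b w) 0 0)
        ((m.factorial : ℝ) ^ 2 * Q ^ (m - 1)) (hKpos m)
        (fun f g hf hg => ndl1 f g _ hf hg) (fun c f hf => ndl2 c f _ hf) (by
          intro f hf
          have h1 := hK m hm f hf ι b
          have h2 : (ND U f (wl b w) 0 0) ^ 2 ≤ ∑ w : Fin m → ι, (ND U f (wl b w) 0 0) ^ 2 :=
            Finset.single_le_sum (f := fun w : Fin m → ι => (ND U f (wl b w) 0 0) ^ 2)
              (fun w _ => sq_nonneg _) (Finset.mem_univ w)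
          exact h2.trans (h1.trans (mul_le_mul_of_nonneg_left (hcv f) (hKpos m))))
      exact ⟨P, fun _ => hP⟩
    · exact ⟨0, fun h => absurd h hm⟩
  choose P hP using hex
  have hgc : ∀ (u : E → ℝ) (c : ℝ), Tst u → GC (XU b U u c) := fun u c hu => (tsf1 u hu).2.2.1 c
  -- removal of the constant
  have hndc : ∀ (u : E → ℝ) (c : ℝ), Tst u → ∀ l : List E, l ≠ [] →
      ND U (XU b U u c) l 0 0 = ND U (fun x => -LO b U u x) l 0 0 := by
    intro u c hu l hl
    have hg : GC (fun x => -LO b U u x) := GC.neg (tsf1 u hu).2.1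
    have h1 := ndl1 (fun x => -LO b U u x) (fun _ => c) l hg (GC.const c)
    rw [ndl3 c l hl, add_zero] at h1
    exact h1
  have hTd : ∀ (i : ι) (u : E → ℝ) (c : ℝ), Tst u → T i (tL U (XU b U u c)) = tL U (D (b i) u) :=
    fun i u c hu => hT i u hu c
  have hone : ∀ f : E → ℝ, GC f →
      (inner ℝ (tL U (fun _ => (1:ℝ))) (tL U f) : ℝ) = ∫ x, f x ∂(mu U) := by
    intro f hf
    rw [mem4 _ f (GC.const 1) hf]
    simp
  refine ⟨P, ?_, ?_, ?_, ?_⟩
  · intro m w σ h hm
    refine NDP_dense hDNS hU b (p := fun h => P m (w ∘ σ) h = P m w h) ?_ ?_ h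
    · exact isClosed_eq (P m (w ∘ σ)).continuous (P m w).continuous
    · intro u c hu
      rw [hP m _ hm _ (hgc u c hu), hP m _ hm _ (hgc u c hu)]
      exact hNDS U t hU _ (hgc u c hu) _ _ (Equiv.Perm.ofFn_comp_perm σ fun j => b (w j))
  · intro w h
    refine NDP_dense hDNS hU b
      (p := fun h => P 1 w h = inner ℝ (tL U (fun _ => (1:ℝ))) (T (w 0) h)) ?_ ?_ h
    · exact isClosed_eq (P 1 w).continuous (continuous_const.inner (T (w 0)).continuous)
    · intro u c hu
      have hl : wl (b : ι → E) w = [b (w 0)] := by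
        unfold wl
        simp
      rw [hP 1 w le_rfl _ (hgc u c hu), hTd _ u c hu, hone _ ((tsf1 u hu).2.2.2.1 _).2, hl,
        hndc u c hu _ (by simp), hNDR U t hU ι b u hu]
      simp only [List.length_cons, List.length_nil, Nat.reduceAdd, Finset.univ_unique,
        Finset.sum_singleton]
      show ND U (D (b (w 0)) u) [] 0 0 = _
      rw [ND_nil]
      exact NDP_pm hU _
  · intro m w h
    refine NDP_dense hDNS hU b
      (p := fun h => P (m + 2) w h = ∑ s : Fin (m + 2),
      P (m + 1) (s.removeNth w) (T (w s) h -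
        (inner ℝ (tL U (fun _ => (1:ℝ))) (T (w s) h) : ℝ) • tL U (fun _ => (1:ℝ)))) ?_ ?_ h
    · refine isClosed_eq (P (m + 2) w).continuous ?_
      refine continuous_finsetSum _ fun s _ => ?_
      refine (P (m + 1) (s.removeNth w)).continuous.comp ?_
      refine (T (w s)).continuous.sub ?_
      have hc1 : Continuous fun h => (inner ℝ (tL U (fun _ => (1:ℝ))) (T (w s) h) : ℝ) :=
        continuous_const.inner (T (w s)).continuous
      exact hc1.smul continuous_const
    · intro u c hu
      rw [hP (m + 2) w (by omega) _ (hgc u c hu), hndc u c hu _ (by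
        unfold wl
        intro h0
        have := congrArg List.length h0
        simp at this), hNDR U t hU ι b u hu]
      have hlen : (wl (b : ι → E) w).length = m + 2 := by
        unfold wl
        simp
      refine Fintype.sum_equiv (finCongr hlen) _ _ fun s => ?_
      rw [hTd _ u c hu, map_sub, map_smul,
        hP (m + 1) _ (by omega) _ ((tsf1 u hu).2.2.2.1 _).2,
        hP (m + 1) _ (by omega) _ (GC.const 1), ndl3 1 _ (by
          unfold wl
          intro h0
          have := congrArg List.length h0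
          simp at this), smul_zero, sub_zero]
      have e1 : (wl (b : ι → E) w).get s = b (w (finCongr hlen s)) := by
        rw [List.get_eq_getElem]
        exact List.getElem_ofFn _
      have e2 : (wl (b : ι → E) w).eraseIdx s = wl b ((finCongr hlen s).removeNth w) := by
        unfold wl
        exact NDP_erase (fun j => b (w j)) (finCongr hlen s)
      rw [e1, e2]
  · intro m hm h
    refine NDP_dense hDNS hU b (p := fun h => ∑ w : Fin m → ι, (P m w h) ^ 2 ≤
      (m.factorial : ℝ) ^ 2 * Q ^ (m - 1) * ‖h‖ ^ 2) ?_ ?_ h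
    · refine isClosed_le ?_ ?_
      · exact continuous_finsetSum _ fun w _ => (P m w).continuous.pow 2
      · exact continuous_const.mul (continuous_norm.pow 2)
    · intro u c hu
      rw [mem5 _ (hgc u c hu)]
      simp only [fun w => hP m w hm _ (hgc u c hu)]
      exact (hK m hm _ (hgc u c hu) ι b).trans (mul_le_mul_of_nonneg_left (hcv _) (hKpos m))

end Pool.Agent.H96.KD
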